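import Mathlib
import Pool.Agent.Helper71.QR.Fin
import Pool.Agent.Helper71.TG.Aa

/-!
# Minimal relations over arbitrary constants
-/

set_option autoImplicit false

namespace Pool.Agent.Helper71.QC

open Finset MvPolynomial Module
open Pool.Agent.Helper71.FC (CW Rel cmb cmb_cmb li_mul li_rows line)
open Pool.Agent.Helper71.QR

variable {k E : Type} [Field k] [Field E] [Algebra k E]

/-- a relation between `y` over the constants `z` which is not an identity in `y` -/
def RelC (W : Submodule k E) (D : ℕ) {v m : ℕ} (z : Fin v → E) (y : Fin m → E) : Prop :=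
  ∃ P : MvPolynomial (Fin (v + m)) E, (∃ x : Fin m → E, eval (Fin.append z x) P ≠ 0) ∧ CW W D P ∧
    eval (Fin.append z y) P = 0

theorem eval_bind {σ τ : Type} (f : σ → MvPolynomial τ k) (P : MvPolynomial σ E) (x : τ → E) :
    eval x (bind₁ (fun i => map (algebraMap k E) (f i)) P) =
      eval (fun i => eval x (map (algebraMap k E) (f i))) P := by
  have := MvPolynomial.aeval_bind₁ (R := E) (f := x)
    (g := fun i => map (algebraMap k E) (f i)) P
  simpa [MvPolynomial.aeval_eq_eval] using this

theorem relC_zero {W : Submodule k E} {D v : ℕ} (z : Fin v → E) (y : Fin 0 → E) :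
    ¬ RelC W D z y := by
  rintro ⟨P, ⟨x, hx⟩, -, h⟩
  apply hx
  rw [← h, Subsingleton.elim x y]

/-- affine substitutions -/
theorem relC_act {W : Submodule k E} {D v m : ℕ} {z : Fin v → E} {y : Fin m → E}
    (h0 : RelC W D z y) (h : Matrix (Fin m) (Fin m) k) (hdet : h.det ≠ 0)
    (t : Fin m → k) (c : Fin m → Fin 0 → k) :
    RelC W D z (tr (![] : Fin 0 → E) t c (cmb (fun i j => h i j) y)) := by
  classical
  obtain ⟨P, ⟨x, hx⟩, hP, hPy⟩ := h0
  have hu : IsUnit h.det := isUnit_iff_ne_zero.2 hdet
  set g := h⁻¹ with hg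
  have hgh : g * h = 1 := Matrix.nonsing_inv_mul _ hu
  let f : Fin (v + m) → MvPolynomial (Fin (v + m)) k := Fin.append
    (fun a => X (Fin.castAdd m a)) (fun i => ∑ l, C (g i l) * (X (Fin.natAdd v l) - C (t l)))
  have hf : ∀ i, (f i).totalDegree ≤ 1 := by
    intro i
    refine Fin.addCases (fun a => ?_) (fun i => ?_) i
    · simp only [f, Fin.append_left]
      rw [totalDegree_X]
    · simp only [f, Fin.append_right]
      refine totalDegree_finsetSum_le fun j _ => ?_
      refine (totalDegree_mul _ _).trans ?_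
      rw [totalDegree_C, zero_add]
      refine (totalDegree_sub _ _).trans ?_
      rw [totalDegree_C, totalDegree_X]
      simp
  have hev : ∀ w : Fin m → E, eval (Fin.append z (tr (![] : Fin 0 → E) t c (cmb (fun i j => h i j) w)))
      (bind₁ (fun i => map (algebraMap k E) (f i)) P) = eval (Fin.append z w) P := by
    intro w
    rw [eval_bind]
    congr 2
    funext i
    refine Fin.addCases (fun a => ?_) (fun i => ?_) i
    · simp only [f, Fin.append_left, map_X, eval_X]
    · simp only [f, Fin.append_right, map_sum, map_mul, map_sub, map_C, map_X, eval_C, eval_X, tr,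
        cmb, Finset.univ_eq_empty, Finset.sum_empty, add_zero, add_sub_cancel_left]
      simp only [Finset.mul_sum, ← mul_assoc, ← map_mul]
      rw [Finset.sum_comm]
      simp only [← Finset.sum_mul, ← map_sum]
      have h1 : ∀ l, ∑ j, g i j * h j l = (1 : Matrix (Fin m) (Fin m) k) i l := by
        intro l
        rw [← hgh, Matrix.mul_apply]
      simp only [h1, Matrix.one_apply]
      rw [Finset.sum_eq_single i]
      · simp
      · intro b _ hb
        rw [if_neg (Ne.symm hb), map_zero, zero_mul]
      · intro h; exact absurd (Finset.mem_univ i) h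
  refine ⟨bind₁ (fun i => map (algebraMap k E) (f i)) P,
    ⟨tr (![] : Fin 0 → E) t c (cmb (fun i j => h i j) x), ?_⟩, hP.bind f hf, ?_⟩
  · rw [hev]
    exact hx
  · rw [hev]
    exact hPy

theorem tr_tr {m : ℕ} (t : Fin m → k) (c : Fin m → Fin 0 → k) (y : Fin m → E) :
    tr (![] : Fin 0 → E) (fun i => -t i) c (tr (![] : Fin 0 → E) t c y) = y := by
  funext i
  simp [tr]

theorem relC_tr {W : Submodule k E} {D v m : ℕ} {z : Fin v → E} {y : Fin m → E} {t : Fin m → k}
    {c : Fin m → Fin 0 → k} (h0 : RelC W D z (tr (![] : Fin 0 → E) t c y)) :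
    RelC W D z y := by
  have h1 := relC_act h0 (1 : Matrix (Fin m) (Fin m) k) (by simp) (fun i => -t i) c
  rw [cmb_one, tr_tr] at h1
  exact h1

/-- `y` is linearly independent modulo `1`, and it satisfies a nontrivial relation over the
constants `z`, but fewer independent combinations never do -/
def BadC (W : Submodule k E) (D : ℕ) {v : ℕ} (z : Fin v → E) (m : ℕ) (y : Fin m → E) : Prop :=
  LinearIndependent k (Fin.cons 1 (Fin.append (![] : Fin 0 → E) y) : Fin (0 + m + 1) → E) ∧
    RelC W D z y ∧
    ∀ m' < m, ∀ u : Fin m' → Fin m → k, LinearIndependent k u →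
      ¬ RelC W D z (cmb u y)

/-- affine maps preserve minimal relations -/
theorem BadC.act {W : Submodule k E} {D v m : ℕ} {z : Fin v → E} {y : Fin m → E}
    (hy : BadC W D z m y) (h : Matrix (Fin m) (Fin m) k) (hdet : h.det ≠ 0) (t : Fin m → k)
    (c : Fin m → Fin 0 → k) :
    BadC W D z m (tr (![] : Fin 0 → E) t c (cmb (fun i j => h i j) y)) := by
  refine ⟨li_cmbZ hy.1 _ (li_rows h hdet) t c, relC_act hy.2.1 h hdet t c, ?_⟩
  intro m' hm' u hu hrel
  refine hy.2.2 m' hm' _ (li_mul (fun i j => h i j) u (li_rows h hdet) hu) ?_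
  rw [cmb_tr] at hrel
  have h1 := relC_tr hrel
  rwa [cmb_cmb] at h1

/-- no lines -/
theorem BadC.no_line [Infinite E] {W : Submodule k E} {D v m : ℕ} {z : Fin v → E} {y : Fin m → E}
    (hy : BadC W D z m y) {P : MvPolynomial (Fin (v + m)) E}
    (hP0 : ∃ x : Fin m → E, eval (Fin.append z x) P ≠ 0) (hP : CW W D P)
    (w : Fin m → k) (hw : w ≠ 0)
    (h : ∀ s : E, eval (Fin.append z (fun i => y i + s * algebraMap k E (w i))) P = 0) : False := by
  classical
  obtain ⟨x0, hx0⟩ := hP0
  obtain ⟨i₀, hi₀⟩ : ∃ i, w i ≠ 0 := by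
    by_contra hcon
    push Not at hcon
    exact hw (funext hcon)
  obtain ⟨m', rfl⟩ : ∃ m', m = m' + 1 := ⟨m - 1, by have := i₀.2; omega⟩
  set c : Fin m' → k := fun j => w (i₀.succAbove j) / w i₀ with hc
  have hwE : algebraMap k E (w i₀) ≠ 0 := (map_ne_zero _).2 hi₀
  let f : Fin (v + (m' + 1)) → MvPolynomial (Fin (v + m' + 1)) k := Fin.append
    (fun a => X (Fin.castAdd m' a).succ)
    (i₀.insertNth (X 0) (fun j => X (Fin.natAdd v j).succ + C (c j) * X 0))
  have hfl : ∀ a, f (Fin.castAdd (m' + 1) a) = X (Fin.castAdd m' a).succ := fun a => by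
    simp only [f, Fin.append_left]
  have hf0 : f (Fin.natAdd v i₀) = X 0 := by
    simp only [f, Fin.append_right]
    exact Fin.insertNth_apply_same _ _ _
  have hf1 : ∀ j, f (Fin.natAdd v (i₀.succAbove j)) =
      X (Fin.natAdd v j).succ + C (c j) * X 0 := fun j => by
    simp only [f, Fin.append_right]
    exact Fin.insertNth_apply_succAbove _ _ _ _
  have hf : ∀ i, (f i).totalDegree ≤ 1 := by
    intro i
    refine Fin.addCases (fun a => ?_) (fun i => ?_) i
    · rw [hfl, totalDegree_X]
    · rcases Fin.eq_self_or_eq_succAbove i₀ i with rfl | ⟨j, rfl⟩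
      · rw [hf0, totalDegree_X]
      · rw [hf1]
        refine (totalDegree_add _ _).trans (max_le (by rw [totalDegree_X]) ?_)
        refine (totalDegree_mul _ _).trans ?_
        rw [totalDegree_C, totalDegree_X]
  set P' := bind₁ (fun i => map (algebraMap k E) (f i)) P with hP'
  have hP'W : CW W D P' := hP.bind f hf
  -- the values
  have hev : ∀ (x : Fin (m' + 1) → E) (t : E),
      eval (Fin.cons t (Fin.append z fun j => x (i₀.succAbove j) - algebraMap k E (c j) * x i₀) :
        Fin (v + m' + 1) → E) P' =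
      eval (Fin.append z fun i => x i + (t - x i₀) / algebraMap k E (w i₀) * algebraMap k E (w i)) P := by
    intro x t
    rw [hP', eval_bind]
    congr 2
    funext i
    refine Fin.addCases (fun a => ?_) (fun i => ?_) i
    · rw [hfl, map_X, eval_X, Fin.cons_succ, Fin.append_left, Fin.append_left]
    · rw [Fin.append_right]
      rcases Fin.eq_self_or_eq_succAbove i₀ i with rfl | ⟨j, rfl⟩
      · rw [hf0, map_X, eval_X, Fin.cons_zero, div_mul_cancel₀ _ hwE]
        ring
      · rw [hf1, map_add, map_mul, map_X, map_X, map_C, map_add, map_mul, eval_X, eval_X, eval_C,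
          Fin.cons_zero, Fin.cons_succ, Fin.append_right, hc]
        simp only [map_div₀]
        field_simp
        ring
  set q := finSuccEquiv E (v + m') P' with hq
  -- it does not vanish
  obtain ⟨i, hi⟩ : ∃ i, eval (Fin.append z fun j => x0 (i₀.succAbove j) -
      algebraMap k E (c j) * x0 i₀) (q.coeff i) ≠ 0 := by
    by_contra hcon
    push Not at hcon
    apply hx0
    have h1 : Polynomial.map (eval (Fin.append z fun j => x0 (i₀.succAbove j) -
        algebraMap k E (c j) * x0 i₀)) q = 0 := by
      ext i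
      rw [Polynomial.coeff_map, hcon i, Polynomial.coeff_zero]
    have h2 := hev x0 (x0 i₀)
    rw [eval_eq_eval_mv_eval', ← hq, h1, Polynomial.eval_zero] at h2
    have h3 : (fun i => x0 i + (x0 i₀ - x0 i₀) / algebraMap k E (w i₀) * algebraMap k E (w i)) =
        x0 := by
      funext i
      rw [sub_self, zero_div, zero_mul, add_zero]
    rw [h3] at h2
    exact h2.symm
  have hmap : Polynomial.map (eval (Fin.append z fun j => y (i₀.succAbove j) -
      algebraMap k E (c j) * y i₀)) q = 0 := by
    apply Polynomial.funext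
    intro t
    rw [Polynomial.eval_zero, hq, ← eval_eq_eval_mv_eval', hev]
    exact h _
  have hrel : RelC W D z (fun j => y (i₀.succAbove j) - algebraMap k E (c j) * y i₀) := by
    refine ⟨q.coeff i, ⟨_, hi⟩, ⟨fun s => ?_, ?_⟩, ?_⟩
    · rw [hq, finSuccEquiv_coeff_coeff]
      exact hP'W.1 _
    · have hi0 : q.coeff i ≠ 0 := by
        intro h0
        apply hi
        rw [h0, map_zero]
      have h3 := totalDegree_coeff_finSuccEquiv_add_le P' i hi0
      rw [← hq] at h3
      have h2 := hP'W.2
      omega
    · have h1 := congrArg (fun r => Polynomial.coeff r i) hmap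
      simpa [Polynomial.coeff_map] using h1
  set u : Fin m' → Fin (m' + 1) → k := fun j i =>
    (if i = i₀.succAbove j then 1 else 0) - (if i = i₀ then c j else 0) with hu
  refine hy.2.2 m' (Nat.lt_succ_self _) u ?_ ?_
  · rw [Fintype.linearIndependent_iff]
    intro c hc j
    have h2 := congrFun hc (i₀.succAbove j)
    simp only [Finset.sum_apply, Pi.smul_apply, smul_eq_mul, Pi.zero_apply, hu,
      Fin.succAbove_ne, if_false, sub_zero, Fin.succAbove_right_inj] at h2
    simpa using h2
  · convert hrel using 1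
    funext j
    simp only [cmb, hu, map_sub, sub_mul, Finset.sum_sub_distrib]
    congr 1
    · rw [Finset.sum_eq_single (i₀.succAbove j)]
      · rw [if_pos rfl, map_one, one_mul]
      · intro i _ hi
        rw [if_neg hi, map_zero, zero_mul]
      · intro h; exact absurd (Finset.mem_univ _) h
    · rw [Finset.sum_eq_single i₀]
      · rw [if_pos rfl]
      · intro i _ hi
        rw [if_neg hi, map_zero, zero_mul]
      · intro h; exact absurd (Finset.mem_univ _) h

/-- there are minimal relations -/
theorem exists_badC {W : Submodule k E} {D v m : ℕ} {z : Fin v → E} {y : Fin m → E}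
    (hy : LinearIndependent k (Fin.cons 1 (Fin.append (![] : Fin 0 → E) y) : Fin (0 + m + 1) → E))
    (hrel : RelC W D z y) :
    ∃ m' ≤ m, ∃ u : Fin m' → Fin m → k, BadC W D z m' (cmb u y) := by
  classical
  have hex : ∃ m', ∃ u : Fin m' → Fin m → k, LinearIndependent k u ∧
      RelC W D z (cmb u y) := by
    refine ⟨m, fun i j => (1 : Matrix (Fin m) (Fin m) k) i j, li_rows _ (by simp), ?_⟩
    rw [cmb_one]
    exact hrel
  obtain ⟨u, hu, hrel'⟩ := Nat.find_spec hex
  have hmin := fun m' (hm' : m' < Nat.find hex) => Nat.find_min hex hm'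
  refine ⟨Nat.find hex, ?_, u, ?_, hrel', ?_⟩
  · have := hu.fintype_card_le_finrank
    simpa using this
  · have h1 := li_cmbZ hy u hu 0 0
    have h2 : tr (![] : Fin 0 → E) (0 : Fin (Nat.find hex) → k) 0 (cmb u y) = cmb u y := by
      funext i
      simp [tr]
    rwa [h2] at h1
  · intro m' hm' u' hu' h
    refine hmin m' hm' ⟨_, li_mul u u' hu hu', ?_⟩
    rw [← cmb_cmb]
    exact h

end Pool.Agent.Helper71.QC
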