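import Mathlib
import Pool.Agent.Helper71.QC.BadC

/-!
# The dimension of the set of minimal relations with arbitrary constants
-/

set_option autoImplicit false

namespace Pool.Agent.Helper71.QC

open Finset MvPolynomial Module
open Pool.Agent.H297R2 (Ex card_Ex)
open Pool.Agent.W254.PA (Hyp)
open Pool.Agent.Y787.AS (Wts' Big RE)
open Pool.Agent.Helper71.FC (CW Rel cw_eval)
open Pool.Agent.Helper71.QR

variable {k E : Type} [Field k] [Field E] [Algebra k E]

/-- **The dimension of the set of the tuples with a minimal relation.** -/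
theorem bad_dimC [CharZero k] [CharZero E] {Lt : Submodule k E} (hL : Hyp Lt) (hw : Wts' k E)
    {W : Submodule k E} [Module.Finite k W] {D v m d N q : ℕ} (hdm : d ≤ m)
    (hq : finrank k W * (D + (v + m)).choose (v + m) + ((m - d) * N + d * (d - 1)) ≤ q)
    (z : Fin v → E) (l : Fin N → E) (hl : ∀ j, l j ∈ Lt) (hli : LinearIndependent k l)
    (φ : Fin q → ((Fin m × Fin N → k) →ₗ[k] k)) :
    ∃ P : MvPolynomial (Fin q) k, P ≠ 0 ∧ ∀ b : Fin m → Fin N → k,
      BadC W D z m (fun i => ∑ j, algebraMap k E (b i j) * l j) →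
        eval (fun i => φ i (fun p => b p.1 p.2)) P = 0 := by
  classical
  obtain ⟨f, rfl⟩ : ∃ f, m = d + f := ⟨m - d, by omega⟩
  rw [Nat.add_sub_cancel_left] at hq
  have hinf : Infinite E := CharZero.infinite E
  set w := Module.finBasis k W with hwdef
  let I := Ex (Fin (v + (d + f))) D × Fin (finrank k W)
  have hcard : Fintype.card I ≤ finrank k W * (D + (v + (d + f))).choose (v + (d + f)) := by
    rw [Fintype.card_prod, Fintype.card_fin, mul_comm]
    exact Nat.mul_le_mul_left _ (card_Ex (v + (d + f)) D)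
  rcases Nat.eq_zero_or_pos (Fintype.card I) with h0 | hpos
  · refine ⟨1, one_ne_zero, fun b hb => ?_⟩
    exfalso
    obtain ⟨P, ⟨x, hx⟩, hP, -⟩ := hb.2.1
    obtain ⟨T, ⟨p, -⟩, -⟩ := cw_eval hP (fun h0 => hx (by rw [h0, map_zero]))
    exact (Fintype.card_eq_zero_iff.1 h0).false p
  obtain ⟨τ, hτ⟩ : ∃ τ, Fintype.card I = τ + 1 := ⟨Fintype.card I - 1, by omega⟩
  let e : Fin (τ + 1) ≃ I := (Fintype.equivFinOfCardEq hτ).symm
  let ε : (Fin τ ⊕ (Fin f × Fin N)) ≃ Fin (τ + f * N) := Fintype.equivFinOfCardEq (by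
    rw [Fintype.card_sum, Fintype.card_prod, Fintype.card_fin, Fintype.card_fin, Fintype.card_fin])
  -- the variables
  let XX : Fin (v + (d + f)) → MvPolynomial (Fin d ⊕ Fin (τ + f * N)) E :=
    Fin.append (fun a => C (z a)) (Fin.append (fun i => X (Sum.inl i))
      (fun i => ∑ j, X (Sum.inr (ε (Sum.inr (i, j)))) * C (l j)))
  let mon : I → MvPolynomial (Fin d ⊕ Fin (τ + f * N)) E := fun p =>
    C ((w p.2 : W) : E) * ∏ i, XX i ^ (p.1 : Fin (v + (d + f)) →₀ ℕ) i
  let zz : (Fin d → E) → (Fin (τ + f * N) → E) → Fin (v + (d + f)) → E := fun x t =>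
    Fin.append z (Fin.append x (fun i => ∑ j, t (ε (Sum.inr (i, j))) * l j))
  have hXX : ∀ i x t, eval (Sum.elim x t) (XX i) = zz x t i := by
    intro i x t
    refine Fin.addCases (fun a => ?_) (fun i => ?_) i
    · simp only [XX, zz, Fin.append_left, eval_C]
    · refine Fin.addCases (fun i => ?_) (fun i => ?_) i
      · simp only [XX, zz, Fin.append_right, Fin.append_left, eval_X, Sum.elim_inl]
      · simp only [XX, zz, Fin.append_right, map_sum, map_mul, eval_X, eval_C, Sum.elim_inr]
  have hmon : ∀ (p : I) x t, eval (Sum.elim x t) (mon p) =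
      ((w p.2 : W) : E) * ∏ i, zz x t i ^ (p.1 : Fin (v + (d + f)) →₀ ℕ) i := by
    intro p x t
    simp only [mon, map_mul, map_prod, map_pow, eval_C, hXX]
  let F : Fin (τ + 1) → Fin 1 → MvPolynomial (Fin d ⊕ Fin (τ + f * N)) E := fun i₀ _ =>
    mon (e i₀) + ∑ a, X (Sum.inr (ε (Sum.inl a))) * mon (e (i₀.succAbove a))
  -- the functionals
  let σ : Fin (d + f) × Fin N → (Fin d × Fin N) ⊕ Fin (τ + f * N) := fun p =>
    Fin.addCases (motive := fun _ => (Fin d × Fin N) ⊕ Fin (τ + f * N))
      (fun i => Sum.inl (i, p.2)) (fun i => Sum.inr (ε (Sum.inr (i, p.2)))) p.1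
  have hex := fun i₀ => fam_coord2 hL hw (m := d) (N := N) (q := q) (τ := τ + f * N) l hl hli
    (F i₀) (by omega) (fun i => φ i ∘ₗ LinearMap.funLeft k k σ)
  choose P hP0 hP using hex
  refine ⟨∏ i₀, P i₀, Finset.prod_ne_zero_iff.2 fun i₀ _ => hP0 i₀, fun b hb => ?_⟩
  obtain ⟨Q, ⟨x1, hx1⟩, hQ, hQy⟩ := hb.2.1
  have hQ0 : Q ≠ 0 := fun h0 => hx1 (by rw [h0, map_zero])
  obtain ⟨T, ⟨p₀, hp₀⟩, hT⟩ := cw_eval hQ hQ0
  set i₀ := e.symm p₀ with hi₀
  have hei : e i₀ = p₀ := by rw [hi₀, Equiv.apply_symm_apply]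
  set y : Fin (d + f) → E := fun i => ∑ j, algebraMap k E (b i j) * l j with hy
  let t : Fin (τ + f * N) → k := fun a => Sum.elim (fun a => T (e (i₀.succAbove a)) / T p₀)
    (fun p : Fin f × Fin N => b (Fin.natAdd d p.1) p.2) (ε.symm a)
  have ht1 : ∀ a, t (ε (Sum.inl a)) = T (e (i₀.succAbove a)) / T p₀ := by
    intro a; simp [t]
  have ht2 : ∀ i j, t (ε (Sum.inr (i, j))) = b (Fin.natAdd d i) j := by
    intro i j; simp [t]
  have hTE : algebraMap k E (T p₀) ≠ 0 := (map_ne_zero _).2 hp₀
  have hzz : ∀ x : Fin d → E, zz x (fun a => algebraMap k E (t a)) =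
      Fin.append z (Fin.append x (fun i => y (Fin.natAdd d i))) := by
    intro x
    have : (fun i => ∑ j, (fun a => algebraMap k E (t a)) (ε (Sum.inr (i, j))) * l j) =
        fun i => y (Fin.natAdd d i) := by
      funext i
      simp only [ht2, hy]
    simp only [zz]
    rw [this]
  have hFe : ∀ (x : Fin d → E) (s : Fin 1),
      eval (Sum.elim x (fun a => algebraMap k E (t a))) (F i₀ s) =
      (algebraMap k E (T p₀))⁻¹ *
        eval (Fin.append z (Fin.append x (fun i => y (Fin.natAdd d i)))) Q := by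
    intro x s
    rw [hT, ← Equiv.sum_comp e, Fin.sum_univ_succAbove _ i₀, mul_add, ← mul_assoc, hei,
      inv_mul_cancel₀ hTE, one_mul]
    simp only [F, map_add, map_sum, map_mul, eval_X, Sum.elim_inr, hmon, hei, ht1, hzz]
    congr 1
    rw [Finset.mul_sum]
    refine Finset.sum_congr rfl fun a _ => ?_
    rw [map_div₀, div_eq_inv_mul]
    ring
  have hyz : (Fin.append (fun i => y (Fin.castAdd f i)) (fun i => y (Fin.natAdd d i)) :
      Fin (d + f) → E) = y := by
    funext i
    refine Fin.addCases (fun i => ?_) (fun i => ?_) i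
    · rw [Fin.append_left]
    · rw [Fin.append_right]
  rw [map_prod]
  refine Finset.prod_eq_zero (Finset.mem_univ i₀) ?_
  have hfin := hP i₀ (fun i => b (Fin.castAdd f i)) t ?_ ?_
  · rw [← hfin]
    congr 1
    congr 1
    funext i
    rw [LinearMap.comp_apply]
    congr 1
    funext p
    rw [LinearMap.funLeft_apply]
    obtain ⟨r, j⟩ := p
    refine Fin.addCases (fun i => ?_) (fun i => ?_) r
    · simp only [σ, Fin.addCases_left, Sum.elim_inl]
    · simp only [σ, Fin.addCases_right, Sum.elim_inr, ht2]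
  · intro s
    rw [hFe _ s]
    change _ * eval (Fin.append z (Fin.append (fun i => y (Fin.castAdd f i))
      (fun i => y (Fin.natAdd d i)))) Q = 0
    rw [hyz, hQy, mul_zero]
  · rintro ⟨R, hR, hRv⟩
    have hRne : R ≠ ⊥ := by
      rintro rfl
      simp at hR
    obtain ⟨c, hcR, hc0⟩ := Submodule.exists_mem_ne_zero_of_ne_bot hRne
    let c' : Fin (d + f) → k := Fin.append c (fun _ => 0)
    have hc' : c' ≠ 0 := by
      intro h
      apply hc0
      funext i
      have := congrFun h (Fin.castAdd f i)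
      simpa [c'] using this
    refine hb.no_line ⟨x1, hx1⟩ hQ c' hc' fun s => ?_
    have h1 := hRv 0 (fun i => s * algebraMap k E (c i)) (by
      have h2 : (fun i => algebraMap k E (c i)) ∈ RE E R := Submodule.subset_span ⟨c, hcR, rfl⟩
      exact (RE E R).smul_mem s h2)
    rw [hFe _ 0] at h1
    have h3 : (Fin.append (fun i : Fin d => ∑ j, algebraMap k E (b (Fin.castAdd f i) j) * l j +
        s * algebraMap k E (c i)) (fun i => y (Fin.natAdd d i)) : Fin (d + f) → E) =
        fun i => y i + s * algebraMap k E (c' i) := by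
      funext i
      refine Fin.addCases (fun i => ?_) (fun i => ?_) i
      · simp only [Fin.append_left, c', hy]
      · simp only [Fin.append_right, c', map_zero, mul_zero, add_zero]
    rw [h3] at h1
    rcases mul_eq_zero.1 h1 with h2 | h2
    · exact absurd (inv_eq_zero.1 h2) hTE
    · exact h2

end Pool.Agent.Helper71.QC
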