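import Mathlib
import Pool.Agent.Helper71.QC.ExcC

/-!
# Generic tuples: relations with arbitrary constants
-/

set_option autoImplicit false

namespace Pool.Agent.Helper71.QC

open Finset Module MvPolynomial
open Pool.Agent.W254.PA (Hyp)
open Pool.Agent.Y787.AS (Wts')
open Pool.Agent.Helper71.FC (CW Rel cmb cmb_cmb)
open Pool.Agent.Helper71.QR (pt tr AA mem_span_three li_append li_cmbZ cmb_one append_zero)
open Pool.Agent.Helper71.TG (li_empty)

variable {k E : Type} [Field k] [Field E] [Algebra k E]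

/-- any at most `M` elements of the span of `1, y` which are independent modulo `1` satisfy
together with the constants `z` no relation -/
def NoRelC {n v : ℕ} (W : Submodule k E) (D M : ℕ) (z : Fin v → E) (y : Fin n → E) : Prop :=
  ∀ m ≤ M, ∀ y' : Fin m → E,
    (∀ i, y' i ∈ Submodule.span k (insert 1 (Set.range y))) →
    LinearIndependent k (Fin.cons 1 y' : Fin (m + 1) → E) →
    ¬ RelC W D z y'

/-- without minimal relations there are no relations -/
theorem noRelC_of {n v D M : ℕ} {W : Submodule k E} {z : Fin v → E} {y : Fin n → E}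
    (h : ¬ IsBadC W D M z y) : NoRelC W D M z y := by
  intro m hm y' hy' hli hrel
  have hmem : ∀ i, y' i ∈ Submodule.span k
      (insert 1 (Set.range (![] : Fin 0 → E) ∪ Set.range y)) := fun i =>
    Submodule.span_mono (Set.insert_subset_insert Set.subset_union_right) (hy' i)
  choose t c u hy using fun i => mem_span_three (hmem i)
  have hyt : y' = tr (![] : Fin 0 → E) t c (cmb u y) := by
    funext i
    rw [hy i]
    rfl
  have hli0 := li_empty (k := k) (![] : Fin 0 → E) hli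
  have hli' : LinearIndependent k
      (Fin.cons 1 (Fin.append (![] : Fin 0 → E) (cmb u y)) : Fin (0 + m + 1) → E) := by
    have h1 := li_cmbZ (m' := m) hli0 (fun i j => (1 : Matrix (Fin m) (Fin m) k) i j)
      (Pool.Agent.Helper71.FC.li_rows _ (by simp)) (fun i => -t i) (fun i a => -c i a)
    rw [cmb_one] at h1
    convert h1 using 3
    rw [hyt]
    funext i
    simp only [tr, map_neg, neg_mul, Finset.sum_neg_distrib]
    ring
  rw [hyt] at hrel
  obtain ⟨m', hm', u', hbad⟩ := exists_badC hli' (relC_tr hrel)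
  rcases Nat.eq_zero_or_pos m' with h0 | h0
  · subst h0
    exact relC_zero _ _ hbad.2.1
  · rw [cmb_cmb] at hbad
    exact h ⟨m', hm'.trans hm, h0, _, hbad⟩

variable [CharZero k] [CharZero E]

/-- **The exceptional hypersurface.** -/
theorem exists_hyp [Countable k] {Lt : Submodule k E} (hL : Hyp Lt) (hw : Wts' k E)
    {W : Submodule k E} [Module.Finite k W] {D M n R v : ℕ}
    (hnum : NumC (finrank k W) D M n R v (n * R)) (z : Fin v → E) (b : Fin R → E)
    (hbL : ∀ s, (Fin.append (Fin.cons 1 (![] : Fin 0 → E) : Fin (0 + 1) → E) b) s ∈ Lt)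
    (hb : LinearIndependent k (Fin.append (Fin.cons 1 (![] : Fin 0 → E) : Fin (0 + 1) → E) b)) :
    ∃ Ψ : MvPolynomial (Fin n × Fin R) k, Ψ ≠ 0 ∧ ∀ x : Fin n × Fin R → k,
      MvPolynomial.eval x Ψ ≠ 0 → ¬ IsBadC W D M z (pt b x) := by
  classical
  have hcard : Fintype.card (Fin n × Fin R) = n * R := by
    rw [Fintype.card_prod, Fintype.card_fin, Fintype.card_fin]
  set e : Fin n × Fin R ≃ Fin (n * R) := Fintype.equivFinOfCardEq hcard with he
  obtain ⟨Ψ, hΨ, hΨ0⟩ := exc_dimC hL hw hnum z b hbL hb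
    (fun i => LinearMap.proj (R := k) (φ := fun _ : Fin n × Fin R => k) (e.symm i))
  refine ⟨MvPolynomial.rename e.symm Ψ, ?_, fun x hx hbad => ?_⟩
  · intro h0
    apply hΨ
    exact (MvPolynomial.rename_injective _ e.symm.injective) (by rw [h0, map_zero])
  · apply hx
    rw [MvPolynomial.eval_rename]
    exact hΨ0 x hbad

/-- **Counting.** -/
theorem count_exc [Countable k] {Lt : Submodule k E} (hL : Hyp Lt) (hw : Wts' k E)
    {W : Submodule k E} [Module.Finite k W] {D M n R v e : ℕ} (he : e ≤ n * R)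
    (hnum : NumC (finrank k W) D M n R v (n * R + 1 - e)) (z : Fin v → E) (b : Fin R → E)
    (hbL : ∀ s, (Fin.append (Fin.cons 1 (![] : Fin 0 → E) : Fin (0 + 1) → E) b) s ∈ Lt)
    (hb : LinearIndependent k (Fin.append (Fin.cons 1 (![] : Fin 0 → E) : Fin (0 + 1) → E) b))
    (Q : (Fin n → Fin R → k) → Prop)
    (hQ : ∀ x, ¬ IsBadC W D M z (pt b fun p => x p.1 p.2) → Q x) :
    ∃ κ : ℕ, ∀ H : ℕ, 1 ≤ H →
      Set.ncard {X : Fin n → Fin R → ℤ | (∀ i j, |X i j| ≤ H) ∧ ¬ Q (fun i j => (X i j : k))} ≤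
        κ * H ^ (n * R - e) := by
  classical
  have e1 : n * R + 1 - e = n * R - e + 1 := by omega
  rw [e1] at hnum
  obtain ⟨κ, hκ⟩ := Pool.Agent.Y787.HS.count_gen (K := k) (d := n * R - e)
    (σ := Fin n × Fin R) {x | IsBadC W D M z (pt b x)}
    (fun φ => exc_dimC hL hw hnum z b hbL hb φ)
  refine ⟨κ, fun H hH => ?_⟩
  have hfin : Set.Finite {X : Fin n → Fin R → ℤ | (∀ i j, |X i j| ≤ H) ∧
      ¬ Q (fun i j => (X i j : k))} := by
    refine Set.Finite.subset (Set.Finite.pi' (fun _ : Fin n => Set.Finite.pi'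
      (fun _ : Fin R => (Set.finite_Icc (-(H : ℤ)) H)))) ?_
    rintro X ⟨hX, -⟩ i j
    exact abs_le.1 (hX i j)
  rw [Set.ncard_eq_toFinset_card _ hfin]
  let g : (Fin n → Fin R → ℤ) → (Fin n × Fin R → ℤ) := fun X p => X p.1 p.2
  have hg : Function.Injective g := by
    intro A A' h
    funext i j
    exact congrFun h (i, j)
  rw [← Finset.card_image_of_injective _ hg]
  refine hκ H hH _ ?_
  intro a ha
  obtain ⟨A, hA, rfl⟩ := Finset.mem_image.1 ha
  rw [Set.Finite.mem_toFinset] at hA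
  refine ⟨fun p => hA.1 _ _, ?_⟩
  by_contra hgood
  exact hA.2 (hQ _ hgood)

variable [Countable k]

theorem aa_ofC {Lt : Submodule k E} (hL : Hyp Lt) (hw : Wts' k E)
    {W : Submodule k E} [Module.Finite k W] {D M n R v e : ℕ} (he : e ≤ n * R)
    (hnum : NumC (finrank k W) D M n R v (n * R + 1 - e)) (he1 : 1 ≤ e)
    (z : Fin v → E) (b : Fin R → E)
    (hbL : ∀ s, (Fin.append (Fin.cons 1 (![] : Fin 0 → E) : Fin (0 + 1) → E) b) s ∈ Lt)
    (hb : LinearIndependent k (Fin.append (Fin.cons 1 (![] : Fin 0 → E) : Fin (0 + 1) → E) b))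
 :
    AA e (fun x : Fin n → Fin R → k =>
      NoRelC W D M z (fun i => ∑ j, algebraMap k E (x i j) * b j)) := by
  have hnum' : NumC (finrank k W) D M n R v (n * R) := by
    intro m h1 h2 h3
    obtain ⟨d, hd, h4⟩ := hnum m h1 h2 h3
    exact ⟨d, hd, h4.trans (by omega)⟩
  refine ⟨?_, ?_⟩
  · obtain ⟨Ψ, hΨ, h1⟩ := exists_hyp hL hw hnum' z b hbL hb
    refine ⟨Ψ, hΨ, fun x hx => ?_⟩
    have h2 : NoRelC W D M z (pt b fun p => x p.1 p.2) :=
      noRelC_of (h1 (fun p => x p.1 p.2) hx)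
    exact h2
  · have h1 := count_exc hL hw he hnum z b hbL hb (fun x : Fin n → Fin R → k =>
      NoRelC W D M z (fun i => ∑ j, algebraMap k E (x i j) * b j)) fun x hx => by
        have h2 : NoRelC W D M z (pt b fun p => x p.1 p.2) := noRelC_of hx
        exact h2
    exact h1

/-- the numerical condition -/
theorem num_C {w D M n R v e : ℕ} (hnR : n ≤ R) (he : e ≤ n * R)
    (h : ∀ m, 0 < m → m ≤ M → m ≤ n → ∃ d ≤ m,
      w * (v + m + D).choose D + m * (n - m) + e ≤ d * (R + 2 - d) + 1) :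
    NumC w D M n R v (n * R + 1 - e) := by
  intro m hm0 hmM hmn
  obtain ⟨d, hdm, h1⟩ := h m hm0 hmM hmn
  refine ⟨d, hdm, ?_⟩
  have hch : (D + (v + m)).choose (v + m) = (v + m + D).choose D := by
    rw [add_comm D (v + m), Nat.choose_symm_add]
  rw [hch]
  generalize w * (v + m + D).choose D = X at h1 ⊢
  obtain ⟨a, rfl⟩ : ∃ a, n = m + a := ⟨n - m, by omega⟩
  obtain ⟨c, rfl⟩ : ∃ c, R = m + a + c := ⟨R - (m + a), by omega⟩
  obtain ⟨f', rfl⟩ : ∃ f', m = d + f' := ⟨m - d, by omega⟩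
  have e1 : d + f' + a - (d + f') = a := by omega
  have e2 : d + f' + a + c + 2 - d = f' + a + c + 2 := by omega
  have e3 : d + f' - d = f' := by omega
  rw [e1, e2] at h1
  rw [e1, e3]
  obtain ⟨f, hf⟩ : ∃ f, (d + f' + a) * (d + f' + a + c) = e + f := ⟨_, (Nat.add_sub_cancel' he).symm⟩
  have e5 : (d + f' + a) * (d + f' + a + c) + 1 - e = f + 1 := by omega
  rw [e5]
  obtain ⟨d', rfl⟩ | rfl : (∃ d', d = d' + 1) ∨ d = 0 := by
    rcases Nat.eq_zero_or_pos d with h0 | h0
    · exact Or.inr h0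
    · exact Or.inl ⟨d - 1, by omega⟩
  · rw [Nat.add_sub_cancel]
    nlinarith [h1, hf]
  · nlinarith [h1, hf]

end Pool.Agent.Helper71.QC
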